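import Pool.Agent.T9h34.Q.Spec5

set_option autoImplicit false

/-!
# The dual circuit (X4)
-/

namespace Pool.Agent.T9h35.QC

open Pool.Agent.T9h34.Q
open Pool.Agent.HC34 (srcs IsLevel DepthLE)
open Pool.Agent.T9h35.RW

variable {ι : Type}

theorem comp_mono {gs : List (Pool.Agent.T9h35.RW.Gate ι)} {lev : ℕ → ℕ} {F : (ι → Bool) → ℝ} {l l' : ℕ}
    (h : Comp gs lev F l) (hl : l ≤ l') : Comp gs lev F l' := by
  obtain ⟨a, ha, hx⟩ := h
  exact ⟨a, fun j hj => ⟨(ha j hj).1, (ha j hj).2.trans_le hl⟩, hx⟩

theorem prog_D {f s D D' T : ℕ} {𝓕 : Set (((ι → Bool) → ℝ) × ℕ)} (h : Prog f s D T 𝓕)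
    (hD : D ≤ D') : Prog f s D' T 𝓕 := by
  obtain ⟨gs, lev, h1, h2, h3, h4, h5, h6⟩ := h
  exact ⟨gs, lev, h1, h2, h3, h4, fun j hj => (h5 j hj).trans_le hD, h6⟩

theorem prog_sub {f s D T : ℕ} {𝓕 𝓖 : Set (((ι → Bool) → ℝ) × ℕ)} (h : Prog f s D T 𝓕)
    (hg : ∀ p ∈ 𝓖, ∃ l ≤ p.2, (p.1, l) ∈ 𝓕) : Prog f s D T 𝓖 := by
  obtain ⟨gs, lev, h1, h2, h3, h4, h5, h6⟩ := h
  refine ⟨gs, lev, h1, h2, h3, h4, h5, fun p hp => ?_⟩
  obtain ⟨l, hl, hm⟩ := hg p hp
  exact comp_mono (h6 (p.1, l) hm) hl

/-- The function which replaces a source. -/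
noncomputable def pos (L : ℕ) (v : ℕ → (ι → Bool) → ℝ) : Src ι → (ι → Bool) → ℝ
  | .input i => inp i
  | .const c => fun _ => c
  | .gate i => if i < L then v i else fun _ => 0

/-- The function which replaces the negative of a source. -/
noncomputable def neg (L : ℕ) (z : ι → (ι → Bool) → ℝ) (v : ℕ → (ι → Bool) → ℝ) :
    Src ι → (ι → Bool) → ℝ
  | .input i => z i
  | .const c => fun _ => -c
  | .gate i => if i < L then v i else fun _ => 0

/-- The level of a source. -/
def lvl (l L : ℕ) (lev : ℕ → ℕ) : Src ι → ℕ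
  | .input _ => l
  | .const _ => l
  | .gate i => if i < L then l + lev i + 1 else l

/-- The functions for the gates which are computed. -/
def fams (l : ℕ) (lev : ℕ → ℕ) (L : ℕ) (v v' : ℕ → (ι → Bool) → ℝ) :
    Set (((ι → Bool) → ℝ) × ℕ) :=
  {p | ∃ j < L, p = (v j, l + lev j + 1) ∨ p = (v' j, l + lev j + 1)}

theorem getD_of_forall₂ {u v : List ℝ} (h : List.Forall₂ (· ≤ ·) u v) (k : ℕ) :
    u.getD k 0 ≤ v.getD k 0 := by
  induction h generalizing k with
  | nil => simp
  | cons h1 _ ih =>
    cases k with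
    | zero => simpa using h1
    | succ k => simpa using ih k

theorem nondec_neg {φ : List ℝ → ℝ} (h : Nondecreasing φ) :
    Nondecreasing (fun l => -φ (l.map fun t => -t)) := by
  intro u v huv
  apply neg_le_neg
  apply h
  induction huv with
  | nil => simp
  | cons h1 _ ih => exact List.Forall₂.cons (neg_le_neg h1) ih

/-- The condition on the answers. -/
def Cnd (ths : List ℝ) (l : List ℝ) (b : Fin ths.length → Bool) : Prop :=
  ∀ i : Fin ths.length, (b i = true → ths.get i ≤ l.getD i 0) ∧
    (b i = false → -(l.getD (ths.length + i) 0) < ths.get i)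

theorem cnd_mono {ths u v : List ℝ} (h : List.Forall₂ (· ≤ ·) u v) {b : Fin ths.length → Bool}
    (hb : Cnd ths u b) : Cnd ths v b := by
  intro i
  refine ⟨fun h1 => ((hb i).1 h1).trans (getD_of_forall₂ h _), fun h1 => ?_⟩
  exact lt_of_le_of_lt (neg_le_neg (getD_of_forall₂ h _)) ((hb i).2 h1)

open Classical in
/-- The positive function for a gate of tests. -/
noncomputable def fpos (ths : List ℝ) (ψ : List Bool → Bool) (l : List ℝ) : ℝ :=
  if ∃ b : Fin ths.length → Bool, Cnd ths l b ∧ ψ (List.ofFn b) = true then 1 else 0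

open Classical in
/-- The negative function for a gate of tests. -/
noncomputable def fneg (ths : List ℝ) (ψ : List Bool → Bool) (l : List ℝ) : ℝ :=
  if ∃ b : Fin ths.length → Bool, Cnd ths l b ∧ ψ (List.ofFn b) = false then 0 else -1

theorem nondec_fpos (ths : List ℝ) (ψ : List Bool → Bool) : Nondecreasing (fpos ths ψ) := by
  intro u v huv
  unfold fpos
  by_cases h : ∃ b : Fin ths.length → Bool, Cnd ths u b ∧ ψ (List.ofFn b) = true
  · rw [if_pos h, if_pos]
    obtain ⟨b, hb, hψ⟩ := h
    exact ⟨b, cnd_mono huv hb, hψ⟩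
  · rw [if_neg h]
    split_ifs <;> norm_num

theorem nondec_fneg (ths : List ℝ) (ψ : List Bool → Bool) : Nondecreasing (fneg ths ψ) := by
  intro u v huv
  unfold fneg
  by_cases h : ∃ b : Fin ths.length → Bool, Cnd ths u b ∧ ψ (List.ofFn b) = false
  · rw [if_pos h, if_pos]
    obtain ⟨b, hb, hψ⟩ := h
    exact ⟨b, cnd_mono huv hb, hψ⟩
  · rw [if_neg h]
    split_ifs <;> norm_num

theorem cnd_unique {ths l : List ℝ} {b₀ b : Fin ths.length → Bool} {e : Fin ths.length → ℝ}
    (h1 : ∀ i : Fin ths.length, l.getD i 0 = e i)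
    (h2 : ∀ i : Fin ths.length, l.getD (ths.length + i) 0 = -e i)
    (h0 : ∀ i, b₀ i = true ↔ ths.get i ≤ e i) : Cnd ths l b ↔ b = b₀ := by
  constructor
  · intro hb
    funext i
    have h := hb i
    rw [h1 i, h2 i, neg_neg] at h
    cases hbi : b i with
    | true => exact ((h0 i).2 (h.1 hbi)).symm
    | false =>
      cases hb0 : b₀ i with
      | true => exact absurd ((h0 i).1 hb0) (not_le.2 (h.2 hbi))
      | false => rfl
  · rintro rfl i
    rw [h1 i, h2 i, neg_neg]
    refine ⟨fun h => (h0 i).1 h, fun h => ?_⟩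
    by_contra hc
    rw [not_lt] at hc
    rw [(h0 i).2 hc] at h
    exact absurd h (by simp)

theorem fpos_eq {ths l : List ℝ} {b₀ : Fin ths.length → Bool} {e : Fin ths.length → ℝ}
    (ψ : List Bool → Bool) (h1 : ∀ i : Fin ths.length, l.getD i 0 = e i)
    (h2 : ∀ i : Fin ths.length, l.getD (ths.length + i) 0 = -e i)
    (h0 : ∀ i, b₀ i = true ↔ ths.get i ≤ e i) :
    fpos ths ψ l = if ψ (List.ofFn b₀) then 1 else 0 := by
  unfold fpos
  by_cases h : ψ (List.ofFn b₀) = true
  · rw [if_pos h, if_pos ⟨b₀, (cnd_unique h1 h2 h0).2 rfl, h⟩]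
  · rw [if_neg h, if_neg]
    rintro ⟨b, hb, hψ⟩
    rw [(cnd_unique h1 h2 h0).1 hb] at hψ
    exact h hψ

theorem fneg_eq {ths l : List ℝ} {b₀ : Fin ths.length → Bool} {e : Fin ths.length → ℝ}
    (ψ : List Bool → Bool) (h1 : ∀ i : Fin ths.length, l.getD i 0 = e i)
    (h2 : ∀ i : Fin ths.length, l.getD (ths.length + i) 0 = -e i)
    (h0 : ∀ i, b₀ i = true ↔ ths.get i ≤ e i) :
    fneg ths ψ l = -(if ψ (List.ofFn b₀) then 1 else 0) := by
  unfold fneg
  by_cases h : ψ (List.ofFn b₀) = true
  · rw [if_pos h, if_neg]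
    rintro ⟨b, hb, hψ⟩
    rw [(cnd_unique h1 h2 h0).1 hb, h] at hψ
    exact absurd hψ (by simp)
  · rw [if_neg h, if_pos ⟨b₀, (cnd_unique h1 h2 h0).2 rfl, by simpa using h⟩]
    simp

theorem pos_mem {l L : ℕ} {lev : ℕ → ℕ} {v v' : ℕ → (ι → Bool) → ℝ}
    {𝓕 : Set (((ι → Bool) → ℝ) × ℕ)} (hin : ∀ i, (inp i, l) ∈ 𝓕)
    (hc : ∀ c : ℝ, ((fun _ => c), l) ∈ 𝓕) (a : Src ι) :
    (pos L v a, lvl l L lev a) ∈ 𝓕 ∪ fams l lev L v v' := by
  cases a with
  | input i => exact Or.inl (hin i)
  | const c => exact Or.inl (hc c)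
  | gate i =>
    simp only [pos, lvl]
    split_ifs with h
    · exact Or.inr ⟨i, h, Or.inl rfl⟩
    · exact Or.inl (hc 0)

theorem neg_mem {l L : ℕ} {lev : ℕ → ℕ} {z : ι → (ι → Bool) → ℝ} {v v' : ℕ → (ι → Bool) → ℝ}
    {𝓕 : Set (((ι → Bool) → ℝ) × ℕ)} (hz : ∀ i, (z i, l) ∈ 𝓕)
    (hc : ∀ c : ℝ, ((fun _ => c), l) ∈ 𝓕) (a : Src ι) :
    (neg L z v' a, lvl l L lev a) ∈ 𝓕 ∪ fams l lev L v v' := by
  cases a with
  | input i => exact Or.inl (hz i)
  | const c => exact Or.inl (hc (-c))
  | gate i =>
    simp only [neg, lvl]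
    split_ifs with h
    · exact Or.inr ⟨i, h, Or.inr rfl⟩
    · exact Or.inl (hc 0)

theorem pos_eq {L : ℕ} {v : ℕ → (ι → Bool) → ℝ} {x : ι → Bool} {vals : List ℝ}
    (hL : vals.length = L) (hv : ∀ j < L, v j x = vals.getD j 0) (a : Src ι) :
    pos L v a x = a.eval x vals := by
  cases a with
  | input i => rfl
  | const c => rfl
  | gate i =>
    simp only [pos, Src.eval]
    split_ifs with h
    · exact hv i h
    · rw [List.getD_eq_default _ _ (by omega)]

theorem neg_eq' {L : ℕ} {z : ι → (ι → Bool) → ℝ} {v : ℕ → (ι → Bool) → ℝ} {x : ι → Bool}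
    {vals : List ℝ} (hz : ∀ i, z i x = -inp i x)
    (hL : vals.length = L) (hv : ∀ j < L, v j x = -vals.getD j 0) (a : Src ι) :
    neg L z v a x = -a.eval x vals := by
  cases a with
  | input i => exact hz i
  | const c => rfl
  | gate i =>
    simp only [neg, Src.eval]
    split_ifs with h
    · exact hv i h
    · rw [List.getD_eq_default _ _ (by omega), neg_zero]

theorem add_two (h1 : StP1) {f s D T ℓ : ℕ} {𝓖 : Set (((ι → Bool) → ℝ) × ℕ)}
    (ps qs : List (((ι → Bool) → ℝ) × ℕ)) (φ χ : List ℝ → ℝ) (h : Prog f s D T 𝓖)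
    (hp : ∀ p ∈ ps, p ∈ 𝓖 ∧ p.2 ≤ ℓ) (hq : ∀ p ∈ qs, p ∈ 𝓖 ∧ p.2 ≤ ℓ) (hpl : ps.length ≤ f)
    (hql : qs.length ≤ f) (hφ : Nondecreasing φ) (hχ : Nondecreasing χ) (hD : ℓ + 1 ≤ D) :
    Prog f (s + 2) D T (insert (fun x => χ (qs.map (fun p => p.1 x)), ℓ + 1)
      (insert (fun x => φ (ps.map (fun p => p.1 x)), ℓ + 1) 𝓖)) := by
  have h2 := h1 ι f s D T ℓ D 𝓖 ps φ h hp hpl hφ le_rfl hD
  exact h1 ι f (s + 1) D T ℓ D _ qs χ h2 (fun p hp' => ⟨Or.inr (hq p hp').1, (hq p hp').2⟩) hql hχ
    le_rfl hD

theorem main (h1 : StP1) {f s D T ℓ f' d' DA : ℕ} {𝓕 : Set (((ι → Bool) → ℝ) × ℕ)}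
    {z : ι → (ι → Bool) → ℝ} (lev : ℕ → ℕ) (hP : Prog f s D T 𝓕)
    (hz : ∀ i, (z i, ℓ) ∈ 𝓕) (hin : ∀ i, (inp i, ℓ) ∈ 𝓕) (hc : ∀ c : ℝ, ((fun _ => c), ℓ) ∈ 𝓕)
    (hf : f' ≤ f) (hd : 2 * d' ≤ f) (hD : D ≤ ℓ + DA) (gs : List (Pool.Agent.T9h35.RW.Gate ι))
    (hfan : ∀ g ∈ gs, g.FanIn f' d') (hlev : ∀ j < gs.length, lev j < DA)
    (hl : ∀ (i j : ℕ) (g : Pool.Agent.T9h35.RW.Gate ι), gs[j]? = some g → Src.gate i ∈ srcs g → i < j →
      lev i < lev j) :
    ∃ v v' : ℕ → (ι → Bool) → ℝ,
      Prog f (s + 2 * gs.length) (ℓ + DA) T (𝓕 ∪ fams ℓ lev gs.length v v') ∧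
      ∀ x, (∀ i, z i x = -inp i x) → ∀ j < gs.length,
        v j x = (runGates x gs).getD j 0 ∧ v' j x = -(runGates x gs).getD j 0 := by
  induction gs using List.reverseRecOn with
  | nil =>
    refine ⟨fun _ _ => 0, fun _ _ => 0, ?_, fun x _ j hj => absurd hj (by simp)⟩
    have := prog_D hP hD
    refine prog_sub this fun p hp => ?_
    rcases hp with hp | ⟨j, hj, _⟩
    · exact ⟨p.2, le_rfl, hp⟩
    · exact absurd hj (by simp)
  | append_singleton gs g ih =>
    obtain ⟨v, v', hprog, hval⟩ := ih (fun g' hg' => hfan g' (by simp [hg']))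
      (fun j hj => hlev j (by simp; omega))
      (fun i j g' hg' => hl i j g' (by
        rw [List.getElem?_append_left]
        · exact hg'
        · exact (List.getElem?_eq_some_iff.1 hg').1))
    set L := gs.length with hL
    have hgL : (gs ++ [g])[L]? = some g := by simp [hL]
    have hlevL : lev L < DA := hlev L (by simp [hL])
    have hlv : ∀ a ∈ srcs g, lvl ℓ L lev a ≤ ℓ + lev L := by
      intro a ha
      cases a with
      | input i => simp [lvl]
      | const c => simp [lvl]
      | gate i =>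
        simp only [lvl]
        split_ifs with h
        · have := hl i L g hgL ha h
          omega
        · omega
    have key : ∃ F G : (ι → Bool) → ℝ,
        Prog f (s + 2 * L + 2) (ℓ + DA) T (insert (G, ℓ + lev L + 1)
          (insert (F, ℓ + lev L + 1) (𝓕 ∪ fams ℓ lev L v v'))) ∧
        ∀ x, (∀ i, z i x = -inp i x) → F x = g.eval x (runGates x gs) ∧
          G x = -g.eval x (runGates x gs) := by
      have hg := hfan g (by simp)
      cases g with
      | mono args φ =>
        refine ⟨_, _, add_two h1 (args.map fun a => (pos L v a, lvl ℓ L lev a))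
          (args.map fun a => (neg L z v' a, lvl ℓ L lev a)) φ (fun l => -φ (l.map fun t => -t))
          hprog ?_ ?_ ?_ ?_ hg.2 (nondec_neg hg.2) (by omega), ?_⟩
        · intro p hp
          rw [List.mem_map] at hp
          obtain ⟨a, ha, rfl⟩ := hp
          exact ⟨pos_mem hin hc a, hlv a ha⟩
        · intro p hp
          rw [List.mem_map] at hp
          obtain ⟨a, ha, rfl⟩ := hp
          exact ⟨neg_mem hz hc a, hlv a ha⟩
        · simpa using hg.1.trans hf
        · simpa using hg.1.trans hf
        · intro x hx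
          have hlen : (runGates x gs).length = L := by rw [length_runGates]
          have hp : ∀ a : Src ι, pos L v a x = a.eval x (runGates x gs) :=
            pos_eq hlen fun j hj => (hval x hx j hj).1
          have hn : ∀ a : Src ι, neg L z v' a x = -a.eval x (runGates x gs) :=
            neg_eq' hx hlen fun j hj => (hval x hx j hj).2
          constructor
          · simp [Gate.eval, Function.comp_def, hp]
          · simp [Gate.eval, Function.comp_def, hn]
      | other tests ψ =>
        have hlt : tests.length ≤ d' := hg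
        have hmp : ∀ p ∈ (tests.map fun t => (pos L v t.1, lvl ℓ L lev t.1)) ++
            (tests.map fun t => (neg L z v' t.1, lvl ℓ L lev t.1)),
            p ∈ 𝓕 ∪ fams ℓ lev L v v' ∧ p.2 ≤ ℓ + lev L := by
          intro p hp
          rw [List.mem_append, List.mem_map, List.mem_map] at hp
          rcases hp with ⟨t, ht, rfl⟩ | ⟨t, ht, rfl⟩
          · exact ⟨pos_mem hin hc t.1, hlv t.1 (List.mem_map.2 ⟨t, ht, rfl⟩)⟩
          · exact ⟨neg_mem hz hc t.1, hlv t.1 (List.mem_map.2 ⟨t, ht, rfl⟩)⟩
        have hml : ((tests.map fun t => (pos L v t.1, lvl ℓ L lev t.1)) ++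
            (tests.map fun t => (neg L z v' t.1, lvl ℓ L lev t.1))).length ≤ f := by
          simp only [List.length_append, List.length_map]
          omega
        refine ⟨_, _, add_two h1 _ _ (fpos (tests.map Prod.snd) ψ) (fneg (tests.map Prod.snd) ψ)
          hprog hmp hmp hml hml (nondec_fpos _ _) (nondec_fneg _ _) (by omega), ?_⟩
        intro x hx
        have hlen : (runGates x gs).length = L := by rw [length_runGates]
        have hp : ∀ a : Src ι, pos L v a x = a.eval x (runGates x gs) :=
          pos_eq hlen fun j hj => (hval x hx j hj).1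
        have hn : ∀ a : Src ι, neg L z v' a x = -a.eval x (runGates x gs) :=
          neg_eq' hx hlen fun j hj => (hval x hx j hj).2
        have hls : (tests.map Prod.snd).length = tests.length := by simp
        have hofn : List.ofFn (fun i : Fin (tests.map Prod.snd).length =>
            Test.eval x (runGates x gs) (tests.get (i.cast hls))) =
            tests.map (fun t => Test.eval x (runGates x gs) t) := by
          apply List.ext_getElem
          · simp
          · intro i hi hi'
            simp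
        have e1 : ∀ i : Fin (tests.map Prod.snd).length,
            (((tests.map fun t => (pos L v t.1, lvl ℓ L lev t.1)) ++
              (tests.map fun t => (neg L z v' t.1, lvl ℓ L lev t.1))).map
                (fun p => p.1 x)).getD i 0 =
              (tests.get (i.cast hls)).1.eval x (runGates x gs) := by
          intro i
          have hi : (i : ℕ) < tests.length := by simpa using i.2
          rw [List.map_append, List.getD_append _ _ _ _ (by simpa using hi)]
          rw [List.getD_eq_getElem _ _ (by simpa using hi)]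
          simp [hp]
        have e2 : ∀ i : Fin (tests.map Prod.snd).length,
            (((tests.map fun t => (pos L v t.1, lvl ℓ L lev t.1)) ++
              (tests.map fun t => (neg L z v' t.1, lvl ℓ L lev t.1))).map
                (fun p => p.1 x)).getD ((tests.map Prod.snd).length + i) 0 =
              -(tests.get (i.cast hls)).1.eval x (runGates x gs) := by
          intro i
          have hi : (i : ℕ) < tests.length := by simpa using i.2
          rw [List.map_append, List.getD_append_right _ _ _ _ (by simp)]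
          rw [List.getD_eq_getElem _ _ (by simpa using hi)]
          simp [hn]
        have e0 : ∀ i : Fin (tests.map Prod.snd).length,
            Test.eval x (runGates x gs) (tests.get (i.cast hls)) = true ↔
              (tests.map Prod.snd).get i ≤
                (tests.get (i.cast hls)).1.eval x (runGates x gs) := by
          intro i
          rw [test_eval]
          simp
        constructor
        · rw [fpos_eq ψ e1 e2 e0, hofn]
          rfl
        · rw [fneg_eq ψ e1 e2 e0, hofn]
          rfl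
    obtain ⟨F, G, hFG, hFG'⟩ := key
    refine ⟨Function.update v L F, Function.update v' L G, ?_, ?_⟩
    · have hs : s + 2 * (gs ++ [g]).length = s + 2 * L + 2 := by
        simp [hL]; ring
      rw [hs]
      refine prog_sub hFG fun p hp => ⟨p.2, le_rfl, ?_⟩
      rcases hp with hp | ⟨j, hj, hp⟩
      · exact Or.inr (Or.inr (Or.inl hp))
      · rw [List.length_append, List.length_singleton] at hj
        rcases Nat.lt_succ_iff_lt_or_eq.1 hj with hj | hj
        · have hne : j ≠ L := by omega
          rw [Function.update_of_ne hne, Function.update_of_ne hne] at hp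
          exact Or.inr (Or.inr (Or.inr ⟨j, hj, hp⟩))
        · have hj' : j = L := hj
          subst hj'
          rw [Function.update_self, Function.update_self] at hp
          rcases hp with rfl | rfl
          · exact Or.inr (Or.inl rfl)
          · exact Or.inl rfl
    · intro x hx j hj
      rw [List.length_append, List.length_singleton] at hj
      rw [runGates_append]
      rcases Nat.lt_succ_iff_lt_or_eq.1 hj with hj | hj
      · have hne : j ≠ L := by omega
        rw [Function.update_of_ne hne, Function.update_of_ne hne,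
          getD_append_lt (by rw [length_runGates]; exact hj)]
        exact hval x hx j hj
      · have hj' : j = L := hj
        subst hj'
        rw [Function.update_self, Function.update_self,
          getD_append_eq (by rw [length_runGates])]
        exact hFG' x hx

theorem stP4 : StP1 → StP4 := by
  intro h1 ι f s D T ℓ f' d' DA 𝓕 z A hP hz hin hc hfan hf hd hdep hD
  obtain ⟨lev, hlev, hl⟩ := hdep
  obtain ⟨v, v', hprog, hval⟩ := main h1 lev hP hz hin hc hf hd hD A.gates hfan hlev hl
  refine ⟨pos A.gates.length v A.out.1, ?_, ?_⟩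
  · intro x hx
    have hp := pos_eq (L := A.gates.length) (v := v) (x := x) (length_runGates x A.gates)
      (fun j hj => (hval x hx j hj).1) A.out.1
    rw [hp]
    unfold Circuit.eval
    rw [test_eval]
  · refine prog_sub hprog fun p hp => ?_
    rcases hp with rfl | hp
    · refine ⟨lvl ℓ A.gates.length lev A.out.1, ?_, pos_mem hin hc _⟩
      cases h : A.out.1 with
      | input i => simp [lvl]
      | const c => simp [lvl]
      | gate i =>
        simp only [lvl]
        split_ifs with hi
        · have := hlev i hi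
          omega
        · omega
    · exact ⟨p.2, le_rfl, Or.inl hp⟩

end Pool.Agent.T9h35.QC
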